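import Pool.Agent.Q152.TC.Hyp

/-!
# Groups acting on trees with virtually cyclic edge stabilizers

`Closed C` (`Pool.Agent.Y462.SS.Base`): the class `C` of groups contains `ℤ` and is closed under
groups that embed, finite products, free products, overgroups of finite index and colimits of directed
systems.  `HasSolvable C`: solvable groups are in `C`.
`TreeClosed C` (`Pool.Agent.Q152.TC.Cent`): the class `C` contains the finitely generated groups `H` which
act on a tree with finitely many orbits of edges, such that for some normal subgroup `N` acting trivially
the action of `H / N` is acylindrical, and such that the vertex stabilizers and the preimages of all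
cyclic subgroups of `H / N` are in `C`.  These properties are known for the class of the groups
which satisfy the `K`- and `L`-theoretic Farrell–Jones conjecture with coefficients in additive
categories and finite wreath products.

`St Γ x y`: the intersection of the stabilizers of `x` and `y`.  `VCyc K`: the subgroup `K` has a cyclic
subgroup of finite index.  `Bal c`: if `c ^ p` and `c ^ q` are conjugate, `p ≠ 0`, then `q = p` or
`q = -p`.  `BalGroup G`: all elements of infinite order of `G` are balanced.  `Cmm c`: the commensurator
of the cyclic group generated by `c`, that is, the group of all `g`
with `g * c ^ p * g⁻¹ = c ^ q` for some `p ≠ 0` and `q ≠ 0`.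

Proof.  Call two edges equivalent if they agree up to orientation or if some element of infinite order
fixes both.  The equivalence classes are subtrees (cylinders), and the bipartite graph of the
vertices and the cylinders is a tree, on which the group acts acylindrically: an element which fixes
three vertices of `T` on a path of this tree fixes edges of two different cylinders, so the group of
these elements is finite, with a uniform bound if there are finitely many orbits of edges.  The stabilizer of the
cylinder of an edge whose stabilizer contains `c` of infinite order is contained in `Cmm c`, and if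
`c` is balanced it has a subgroup of index at most two which is the directed union of its
intersections with the centralizers of the powers of `c`.  The centralizer of an element `z` of infinite
order which fixes a vertex acts on the subtree of the fixed points of `z`.  The edge stabilizers
contain a power of `z` as a subgroup of finite index, and for a finitely generated subgroup
and a suitable power `z'` of `z` the quotient by `z'` acts with finite edge stabilizers of
bounded order, so that `TreeClosed` applies again.  For (2), a path from `x` to `g • x` with `g` in
`Cmm c` backtracks in the quotient, where an element of `Cmm c` in a vertex stabilizer shortens it, so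
`Cmm c` is generated by its intersections with vertex stabilizers.  Elements without powers fixing a
vertex are balanced because of their translation length.
-/

set_option autoImplicit false

namespace Pool.Agent.Results.MP_490288_al.CyclicSplittings

open Pool.Agent.Y462.SS Pool.Agent.Q152.TC Pool.Agent.Q91.FJ

/-- Let `C` be a class of groups with the closure properties `Closed C` and `TreeClosed C` which contains
the solvable groups, and let the group `Γ` act on a tree by graph automorphisms (with or without
inversions, with any number of orbits), with virtually cyclic edge stabilizers.

(1) `Γ` is in `C` if and only if the vertex stabilizers are in `C` and the commensurators `Cmm c` of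
the elements `c` of edge stabilizers which have infinite order and are not balanced are in `C`.

(2) Suppose that the quotient of the tree is a tree, in the following sense: there is a `Γ`-invariant
graph homomorphism `ρ` to an acyclic graph, and neighbours `y` and `z` of a vertex `x` with
the same image are equivalent under the stabilizer of `x`.  If the elements of infinite order of the edge
stabilizers are balanced in the stabilizers of the ends of the edge, then `Γ` is in `C` if and only if the
vertex stabilizers are in `C`.  If the vertex stabilizers are balanced groups, then `Γ` is balanced. -/
theorem result (C : ∀ (G : Type) [Group G], Prop) (hC : Closed C) (hS : HasSolvable C)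
    (hA : TreeClosed C)
    (V Γ : Type) [Group Γ] [MulAction Γ V] (T : SimpleGraph V) (hT : T.IsTree)
    (hadj : ∀ (γ : Γ) (x y : V), T.Adj x y → T.Adj (γ • x) (γ • y))
    (hvc : ∀ x y : V, T.Adj x y → VCyc (St Γ x y)) :
    (C Γ ↔ (∀ v : V, C (MulAction.stabilizer Γ v)) ∧
      ∀ x y : V, T.Adj x y → ∀ c ∈ St Γ x y, ¬ IsOfFinOrder c → ¬ Bal c → C (Cmm c)) ∧
    (∀ (W : Type) (S : SimpleGraph W) (ρ : V → W), S.IsAcyclic →
      (∀ x y : V, T.Adj x y → S.Adj (ρ x) (ρ y)) → (∀ (g : Γ) (x : V), ρ (g • x) = ρ x) →
      (∀ x y z : V, T.Adj x y → T.Adj x z → ρ y = ρ z → ∃ g : Γ, g • x = x ∧ g • y = z) →
      ((∀ x y : V, T.Adj x y → ∀ c : MulAction.stabilizer Γ x, (c : Γ) • y = y →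
          ¬ IsOfFinOrder c → Bal c) →
        (C Γ ↔ ∀ v : V, C (MulAction.stabilizer Γ v))) ∧
      ((∀ v : V, BalGroup (MulAction.stabilizer Γ v)) → BalGroup Γ)) := by
  have hsub : ∀ K : Subgroup Γ, C Γ → C K := fun K h =>
    hC.of_injective _ _ K.subtype K.subtype_injective h
  refine ⟨⟨fun h => ⟨fun v => hsub _ h, fun _ _ _ c _ _ _ => hsub _ h⟩,
    fun h => main hC hS hA hT hadj hvc h.1 h.2⟩, ?_⟩
  intro W S ρ hacyc hρ hinv horb
  have hmain : (∀ x y : V, T.Adj x y → ∀ c : MulAction.stabilizer Γ x, (c : Γ) • y = y →
      ¬ IsOfFinOrder c → Bal c) →
      ∀ x y : V, T.Adj x y → ∀ c ∈ St Γ x y, ¬ IsOfFinOrder c → Bal c := by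
    intro hb
    refine bal_tree hT hadj hvc hacyc hρ hinv horb ?_
    intro x y hxy c hc hc' g hg p q hp h
    refine hb x y hxy ⟨c, hc.1⟩ hc.2 ?_ ⟨g, hg⟩ p q hp (Subtype.ext h)
    intro h1
    exact hc' ((isOfFinOrder_iff_of_inj (MulAction.stabilizer Γ x).subtype
      (MulAction.stabilizer Γ x).subtype_injective).2 h1)
  refine ⟨fun hb => ?_, fun hb => ?_⟩
  · refine ⟨fun h v => hsub _ h, fun hv => main hC hS hA hT hadj hvc hv ?_⟩
    intro x y hxy c hc hc' hcb
    exact absurd (hmain hb x y hxy c hc hc') hcb
  · exact bal_all hT hadj (hmain (fun x _ _ c _ hc => hb x c hc)) hb

end Pool.Agent.Results.MP_490288_al.CyclicSplittings
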