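import Pool.Agent.Q91.VR.Class
import Pool.Agent.H219.WhH.Nil

/-!
# The Dennis trace `K₁(K[G]) → HH₁(K[G])` for groups of automorphisms of algebras and of linear
# groups

Let `K` be a field of characteristic zero and `G` a torsion-free group. If the assembly map is
surjective, then `K₁(K[G])` is generated by `K₁(K)` and `G`, so that the Dennis trace of every
invertible matrix over `K[G]` is that of an element of `G`.  We prove this, for cocycles with values
in finitely generated subrings of `K`, for all torsion-free groups of automorphisms of a finitely
generated linear group (for example of a free group `F_n`) or of a finitely generated commutative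
algebra over a field of characteristic zero (for example of polynomial automorphisms), and all
torsion-free groups whose finitely generated subgroups are virtually residually finite `p`-groups,
for infinitely many primes `p`.

The point is that in a virtually residually finite `p`-group the roots of all orders prime to some
`m` are unique.
-/

set_option autoImplicit false

namespace Pool.Agent.Results.MP_490288_al.DennisTraceAutomorphisms

open H219.WhC H219.WhH Pool.Agent.Q91.VR

universe u v

/-- Let `K` be a field of characteristic `0` and `G` a torsion-free group with the property
`Covered G`. Then for every invertible matrix `A` over `K[G]` there is `γ ∈ G` such that every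
Hochschild `1`-cocycle `f` on `K[G]` whose values on pairs of group elements lie in a finitely
generated subring of `K` takes the same value on the Dennis trace of `A` and on that of `γ`. -/
theorem result (K : Type u) [Field K] [CharZero K] (G : Type v) [Group G]
    (htf : ∀ g : G, ∀ m : ℕ, 0 < m → g ^ m = 1 → g = 1) (hG : Covered G)
    (n : ℕ) (A : (Matrix (Fin n) (Fin n) (MonoidAlgebra K G))ˣ) :
    ∃ γ : G, ∀ (s : Finset K) (f : G → G → K), (∀ x y, f x y ∈ Algebra.adjoin ℤ (s : Set K)) →
      (∀ x y z : G, f (x * y) z - f x (y * z) + f (z * x) y = 0) →
      (∑ i, ∑ j, ((A⁻¹).val i j).coeff.sum fun g b =>
          (A.val j i).coeff.sum fun h a => b * a * f g h) = f γ⁻¹ γ := by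
  obtain ⟨γ, hγ⟩ := field_mainH A
  exact ⟨γ, fun s f hs hf => hγ (hG.good htf _ (grpF_fg A)) s f hs hf⟩

end Pool.Agent.Results.MP_490288_al.DennisTraceAutomorphisms
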