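import Pool.Agent.Q152.FI.Verbal

/-!
# Extensions whose kernel is the value of a functor on sets and injections

`Closed C` (`Pool.Agent.Y462.SS.Base`): the class `C` of groups contains `ℤ` and is closed under
groups that embed, finite products, free products, overgroups of finite index and colimits of directed
systems.  `ExtClosed C`: if `G` maps onto a group `Q` of `C`, and the kernel and the preimages of all
infinite cyclic subgroups of `Q` are in `C`, then `G` is in `C`.  These properties are known for the
class `FJ` of the groups which satisfy the Full Farrell–Jones Conjecture.

`FIGroup`: a functor `Φ` from the category of sets and injections to the category of groups which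
commutes with unions of directed families of sets (the homomorphisms `Φ(X) → Φ(Y)` need not be
injective).  Examples: direct powers, free powers, graph products over complete or discrete graphs,
finitary symmetric groups, stable linear groups `GL(R)`, stable congruence subgroups, `Aut` of free
groups, verbal powers.  `aut` is the action of the permutations of `X` on `Φ(X)`.

`VP V P X` is the `V`-verbal power of `P`: the quotient of the free product of copies of `P` indexed by
`X` by the intersection of the verbal subgroup defined by the words in `V` and the kernel of the
homomorphism to the direct power; `verbal V P` is the FI-group with these values.  For `V` empty it is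
the free power, for `V` the commutator it is the restricted direct power, and for `P` the relatively free
group of rank one of a variety it is the relatively free group on `X`.

Proof.  Over an infinite cyclic subgroup of the quotient the extension is a directed colimit of HNN
extensions of the images of `Φ(S)`, `S` finite, in which the stable letter acts by a partial injection
of `S`; since this partial injection extends to a permutation of `S`, the HNN extension has a
homomorphism to the extension of `Φ(X)` by a finite cyclic group which is injective on the base group.
-/

set_option autoImplicit false

namespace Pool.Agent.Results.MP_490288_al.FIGroups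

open Pool.Agent.Y462.SS Pool.Agent.Q152.WP Pool.Agent.Q152.FI

/-- Let `C` be a class of groups with the closure properties `Closed C` and `ExtClosed C`.
(1) Let `Φ` be an FI-group whose values on the finite sets are in `C`.
(1a) Let `ι` be an isomorphism of `Φ(X)` with the kernel of a homomorphism of `G` onto a group `Q` of
`C`.  Suppose that each element of infinite order of `Q` is the image of a `g` in `G` which acts on the
kernel by conjugation as a permutation of `X` acts on `Φ(X)`.  Then `G` is in `C`.
(1b) `Φ(X) ⋊ H` is in `C` for each group `H` in `C` and each set `X` on which it acts.
(2) If the verbal powers of `P` with finitely many factors are in `C`, then the verbal wreath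
product of `P` and `H` over `X` is in `C` for each group `H` in `C` and each `H`-set `X`. -/
theorem result (C : ∀ (G : Type) [Group G], Prop) (hC : Closed C) (hE : ExtClosed C) :
    (∀ Φ : FIGroup, (∀ n : ℕ, C (Φ.obj (Fin n))) →
      (∀ (X G Q : Type) [Group G] [Group Q] (f : G →* Q) (ι : Φ.obj X →* G),
        Function.Surjective f → C Q → Function.Injective ι → ι.range = f.ker →
        (∀ q : Q, ¬ IsOfFinOrder q → ∃ g : G, f g = q ∧
          ∃ ρ : Equiv.Perm X, ∀ x, g * ι x * g⁻¹ = ι (Φ.map ρ.toEmbedding x)) → C G) ∧
      (∀ (X H : Type) [Group H] [MulAction H X], C H →
        C (Φ.obj X ⋊[(Φ.aut X).comp (MulAction.toPermHom H X)] H))) ∧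
    (∀ (V : Set (FreeGroup ℕ)) (P : Type) [Group P], (∀ n : ℕ, C (VP V P (Fin n))) →
      ∀ (X H : Type) [Group H] [MulAction H X], C H →
        C ((verbal V P).obj X ⋊[((verbal V P).aut X).comp (MulAction.toPermHom H X)] H)) := by
  refine ⟨?_, ?_⟩
  · intro Φ hΦ
    refine ⟨?_, ?_⟩
    · intro X G Q _ _ f ι hf hQ hι hr h
      exact FIGroup.kernel hC hE hΦ f hf hQ hι hr h
    · intro X H _ _ hH
      exact FIGroup.semidirect hC hE Φ hΦ X H hH
  · intro V P _ hP X H _ _ hH
    exact FIGroup.semidirect hC hE (verbal V P) hP X H hH

end Pool.Agent.Results.MP_490288_al.FIGroups
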