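import Pool.Agent.Q143.KZ.WhT
import Pool.Agent.Y477.IW.GP

/-!
Whitehead groups of the finite subgroups.

Let the group `Γ` act on a group `N` and on a set `X` with finite point stabilizers, let `e_S`
(`S ⊆ X`) be compatible retractions of `N`, and let `C` be an invariant set of finite subsets of
`X`, closed under subsets, with finite parts `N_S`, `S ∈ C` (for instance, `N` the graph product of
copies of a finite group over an invariant graph with vertex set `X` and `C` the finite cliques; for
the complete graph on `X = Γ` the group `N ⋊ Γ` is the restricted wreath product). For a ring `R`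
let `Wh(R; G)` be the quotient of `K_1(R[G])` by the classes of the units `u g`, `u` a unit of `R`,
`g ∈ G`; for `R = ℤ` this is the Whitehead group. The map from the colimit of the groups `Wh(R; H)`
over the finite subgroups `H` of `N ⋊ Γ` to `Wh(R; N ⋊ Γ)` is injective on the part of the colimit
given by the groups `N_S`, up to the orders of the finite subgroups of `Γ`, and modulo `Wh(R; Γ)`;
if every finite subgroup of `N ⋊ Γ` is conjugate into some `N_S`, it is injective, and its image
meets the image of `Wh(R; Γ)` in that of `Wh(R; 1)` only. The group `Γ` is arbitrary.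
-/

namespace Pool.Agent.Results.MP_490288_al.FiniteSubgroupsWhitehead

open CategoryTheory Pool.Agent.Y483 Pool.Agent.Y483.PI Pool.Agent.Y477.IW Pool.Agent.Q143.KZ
  Pool.Agent.Q143.Wh

theorem result (Γ X : Type) [Group Γ] [MulAction Γ X]
    (hst : ∀ v : X, Finite (MulAction.stabilizer Γ v)) :
    (∀ (R : Type) [Ring R] (N : Type) [Group N] (φ : Γ →* MulAut N) (us : USupp φ X)
      (C : Set (Finset X)), IsFamily Γ C → (∀ S ∈ C, Finite (us.part (S : Set X))) →
      ColimitEmbeds (innerTrivial_whF R) us C) ∧
    ∀ (P : Type) [Group P] (Λ : SimpleGraph X),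
      (∀ (γ : Γ) (u v : X), Λ.Adj u v → Λ.Adj (γ • u) (γ • v)) → HasRetractions Γ P Λ :=
  ⟨fun R _ _ _ _ us _ hC hfin =>
      colimitEmbeds_of us (innerTrivial_whF R) (keyProp_of us (hasPTI_whF R) hst) hst hC hfin,
    fun P _ Λ hΛ => hasRetractions Γ P Λ hΛ⟩

end Pool.Agent.Results.MP_490288_al.FiniteSubgroupsWhitehead
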